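import Pool.Agent.H694.AB.Final

/-!
# MP_6c4da4_ag: if the category of Chow motives over a finite field is abelian, then rational and
numerical equivalence agree on products of curves

Let `C` be the category of Chow motives over a finite field `k` with coefficients in a field `K` of
characteristic zero: a `K`-linear symmetric tensor category in which all objects have duals, with
`End(𝟙) = K`. For a smooth projective variety `X` the morphisms from the unit object `𝟙` to `h(X)(i)`
are the elements of `CH^i(X)_K`, the product of morphisms is the exterior product of cycles, and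
the composition with a morphism from `h(X)(i)` to `𝟙` is the intersection number with a cycle of
complementary codimension. Suppose that `C` is abelian, as asked in the question. Then:

1. the product of nonzero morphisms is nonzero;
2. if `x_1, …, x_r` are linearly independent in `CH^i(X)_K` and `∑ x_j × g_j = 0`, then all `g_j` are
   zero: the exterior product `CH^i(X)_K ⊗ CH^j(Y)_K → CH^(i+j)(X × Y)_K` is injective;
3. smash nilpotent cycles are zero;
4. if the exterior power `Λ^(n+1) M` is zero, then `Hom(𝟙, M)` has dimension at most `n`, and the
   dimension is `n` only if `M` is the sum of `n` copies of `𝟙`; so the Chow groups of varieties with a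
   finite-dimensional motive (in the sense of Kimura) are finite-dimensional;
5. if `M` is a sum of objects `N` such that all morphisms from `𝟙` to `N` are smash nilpotent or
   `Λ^(n+1) N = 0` and a field of degree `n` over `K` acts on `N`, then every nonzero `x : 𝟙 ⟶ M` has a
   left inverse `y : M ⟶ 𝟙`; in particular it is not numerically trivial;
6. each nonzero morphism between sums of objects of rank one (even or odd) induces an isomorphism
   of direct factors of rank one.

By theorems of Weil, Tate, Kimura and Jannsen the motives `h(X)(i)` of the varieties of abelian type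
over a finite field (for example products of curves and abelian varieties) satisfy the hypothesis of
5 for `K = ℚ`, and that of 6 for large `K`. So an affirmative answer to the question implies that
rational and numerical equivalence agree for all these varieties.

## Proof

The tensor product is exact. The unit object is simple: for a nonzero quotient `𝟙 ⟶ I` with the
kernel `J` the tensor product `J ⊗ I` is zero, from this one sees that the image of the transpose
`Iᘁ ⟶ 𝟙` is a complement of `J`, and `End(𝟙)` is a field. So a nonzero morphism from `𝟙` is a
monomorphism. This gives 1, and 2 by induction on `r` (division by `x_1`). By 2 the products of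
independent elements `x_(w 1) × ⋯ × x_(w n)` are independent. Let `Λ^(n+1) M = 0`, let `x_1, …, x_n` be
independent elements of `Hom(𝟙, M)` and `q : M ⟶ Q` their common cokernel. The antisymmetrisation of
`x_1 ⊗ ⋯ ⊗ x_n ⊗ 𝟙_M` is zero; composed with `q` on one factor it becomes the antisymmetrisation of
`x_1 ⊗ ⋯ ⊗ x_n`, tensored with `q`. So `q = 0` and `(x_1, …, x_n)` is an isomorphism from `𝟙^n` to `M`.
If a field `E` of degree `n` acts on `M`, then each `x ≠ 0` has `n` independent multiples by elements
of `E`. For 6 one shows that objects of rank one are invertible, and so simple.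
-/

set_option autoImplicit false

open CategoryTheory MonoidalCategory Limits

universe v u w

namespace Pool.Agent.Results.MP_6c4da4_ag.AbelianTypePerfect

open Pool.Agent.H694.AB

/-- **If the category of Chow motives is abelian, then exterior products are injective, and rational
and numerical equivalence agree for sums of motives of rank one over fields.** -/
theorem result {C : Type u} [Category.{v} C] [Abelian C] [MonoidalCategory C]
    [MonoidalPreadditive C] [SymmetricCategory C] [RigidCategory C] {K : Type w} [Field K]
    [Linear K C] [MonoidalLinear K C]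
    (hEnd : ∀ f : 𝟙_ C ⟶ 𝟙_ C, ∃ r : K, f = r • 𝟙 (𝟙_ C)) (h1 : ¬ IsZero (𝟙_ C)) :
    -- 1. products of nonzero morphisms
    (∀ (X Y S T : C) (f : X ⟶ Y) (g : S ⟶ T), f ⊗ₘ g = 0 → f = 0 ∨ g = 0) ∧
    -- 2. exterior products with independent elements
    (∀ (M N T : C) (r : ℕ) (x : Fin r → (𝟙_ C ⟶ M)) (g : Fin r → (T ⟶ N)),
      LinearIndependent K x → ∑ j, (λ_ T).inv ≫ (x j ⊗ₘ g j) = 0 → ∀ j, g j = 0) ∧
    -- 3. smash nilpotent elements
    (∀ (M : C) (x : 𝟙_ C ⟶ M), SmashNilpotent x → x = 0) ∧
    -- 4. evenly finite-dimensional objects
    (∀ (M : C) (n : ℕ), ExtVanish M n → Module.Finite K (𝟙_ C ⟶ M) ∧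
      Module.finrank K (𝟙_ C ⟶ M) ≤ n ∧
      (Module.finrank K (𝟙_ C ⟶ M) = n → IsUnitPower M n)) ∧
    -- 5. sums of even objects of rank one over fields
    (∀ M : C, SumOfRankOne K M → ∀ x : 𝟙_ C ⟶ M,
      (x ≠ 0 → ∃ y : M ⟶ 𝟙_ C, x ≫ y = 𝟙 (𝟙_ C)) ∧ (NumTrivial x → x = 0)) ∧
    -- 6. sums of objects of rank one
    (∀ (A B : C), SumOfLines A → SumOfLines B → ∀ f : A ⟶ B, f ≠ 0 →
      ∃ (L : C) (a : L ⟶ A) (b : B ⟶ L), RankOne L ∧ a ≫ f ≫ b = 𝟙 L) := by
  refine ⟨?_, ?_, ?_, ?_, ?_, ?_⟩
  · intro X Y S T f g h
    by_contra hcon
    push Not at hcon
    exact tensorHom_ne_zero hEnd hcon.1 hcon.2 h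
  · intro M N T r x g hx h
    exact indep_left hEnd r x hx g h
  · intro M x hx
    by_contra h0
    exact not_smashNilpotent hEnd h1 h0 hx
  · intro M n hM
    exact finite_of_ext hEnd h1 hM
  · intro M hM x
    refine ⟨fun hx => exists_of_sum hEnd h1 hM x hx, fun hx => ?_⟩
    by_contra h0
    obtain ⟨y, hy⟩ := exists_of_sum hEnd h1 hM x h0
    apply h1
    rw [IsZero.iff_id_eq_zero, ← hy, hx y]
  · intro A B hA hB f hf
    exact exists_of_lines hEnd hA hB f hf

end Pool.Agent.Results.MP_6c4da4_ag.AbelianTypePerfect
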